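import Mathlib
import Pool.Agent.Q96.PlaneDom
import Pool.Agent.Q96.CosOrtho

/-!
# Neumann eigenvalue ratios with only the inner domain convex: the infimum is zero in the plane
-/

set_option autoImplicit false

open MeasureTheory Set Filter Topology Q96.Horn Q96.PlaneDom Q96.CosOrtho

namespace Pool.Agent.Results.MP_770ffc_an.RatioTendsToZero

/-- there is a `(k+1)`-dimensional space of `C¹` functions on `Ω` with Rayleigh quotients at most
`r` -/
def Admissible (Ω : Set (ℝ × ℝ)) (k : ℕ) (r : ℝ) : Prop :=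
  ∃ V : Submodule ℝ (ℝ × ℝ → ℝ), Module.finrank ℝ V = k + 1 ∧ (∀ f ∈ V, ContDiff ℝ 1 f) ∧
    (∀ f ∈ V, (∀ z ∈ Ω, f z = 0) → f = 0) ∧
      ∀ f ∈ V, ∫ z in Ω, grad2 f z ≤ r * ∫ z in Ω, f z ^ 2

/-- the Neumann eigenvalue `μ_k(Ω)` (`μ_0 = 0` being the trivial one) through the min-max
principle -/
noncomputable def mu (Ω : Set (ℝ × ℝ)) (k : ℕ) : ℝ := sInf {r | Admissible Ω k r}

lemma integral_sq_pos {Ω : Set (ℝ × ℝ)} (hΩ : IsOpen Ω) {f : ℝ × ℝ → ℝ} (hf : Continuous f)
    (hint : IntegrableOn (fun z => f z ^ 2) Ω) (hne : ¬ ∀ z ∈ Ω, f z = 0) :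
    0 < ∫ z in Ω, f z ^ 2 := by
  rw [setIntegral_pos_iff_support_of_nonneg_ae (Eventually.of_forall fun z => sq_nonneg _) hint]
  have hex : ∃ z ∈ Ω, f z ≠ 0 := by
    by_contra h
    exact hne fun z hz => by
      by_contra h2
      exact h ⟨z, hz, h2⟩
  obtain ⟨z, hz, hfz⟩ := hex
  have hopen : IsOpen (Function.support (fun z => f z ^ 2) ∩ Ω) :=
    ((hf.pow 2).isOpen_support).inter hΩ
  exact hopen.measure_pos _ ⟨z, by simpa using hfz, hz⟩

/-- the test functions -/
noncomputable def test (k : ℕ) : (Fin (k + 1) → ℝ) →ₗ[ℝ] (ℝ × ℝ → ℝ) where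
  toFun c := fun z => ∑ j, c j * cj 1 j z.1
  map_add' c d := by
    funext z
    simp only [Pi.add_apply, add_mul, Finset.sum_add_distrib]
  map_smul' a c := by
    funext z
    simp only [Pi.smul_apply, smul_eq_mul, RingHom.id_apply, Finset.mul_sum, mul_assoc]

lemma test_apply (k : ℕ) (c : Fin (k + 1) → ℝ) (z : ℝ × ℝ) :
    test k c z = ∑ j, c j * cj 1 j z.1 := rfl

lemma hasDerivAt_cj (j : ℕ) (x : ℝ) : HasDerivAt (cj 1 j) (-(j * Real.pi) * sj 1 j x) x := by
  have h1 : HasDerivAt (fun x : ℝ => j * Real.pi * x / 1) (j * Real.pi) x := by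
    have := ((hasDerivAt_id x).const_mul (j * Real.pi)).div_const 1
    simpa using this
  have := h1.cos
  refine this.congr_deriv ?_
  unfold sj; ring

lemma contDiff_test (k : ℕ) (c : Fin (k + 1) → ℝ) : ContDiff ℝ 1 (test k c) := by
  have : test k c = fun z : ℝ × ℝ => ∑ j, c j * Real.cos (j * Real.pi * z.1 / 1) := rfl
  rw [this]
  fun_prop

lemma fderiv_test (k : ℕ) (c : Fin (k + 1) → ℝ) (z : ℝ × ℝ) :
    grad2 (test k c) z = (∑ j, c j * (-(j * Real.pi) * sj 1 j z.1)) ^ 2 := by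
  set g : ℝ → ℝ := fun x => ∑ j, c j * cj 1 j x with hg
  have hgd : HasDerivAt g (∑ j, c j * (-(j * Real.pi) * sj 1 j z.1)) z.1 := by
    rw [hg]
    have := HasDerivAt.fun_sum (u := (Finset.univ : Finset (Fin (k + 1))))
      (fun j _ => (hasDerivAt_cj (j : ℕ) z.1).const_mul (c j))
    exact this
  have h1 : HasFDerivAt (test k c) ((ContinuousLinearMap.toSpanSingleton ℝ
      (∑ j, c j * (-(j * Real.pi) * sj 1 j z.1))).comp (ContinuousLinearMap.fst ℝ ℝ ℝ)) z := by
    have h2 : test k c = g ∘ Prod.fst := rfl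
    rw [h2]
    exact hgd.hasFDerivAt.comp z hasFDerivAt_fst
  unfold grad2
  rw [h1.fderiv]
  simp

lemma sum_sq_integral (k : ℕ) (c : Fin (k + 1) → ℝ) :
    ∫ x in (0 : ℝ)..1, (∑ j, c j * cj 1 j x) ^ 2 = ∑ j : Fin (k + 1), c j ^ 2 * nrm 1 j := by
  have h1 : ∀ x, (∑ j, c j * cj 1 j x) ^ 2 =
      ∑ i : Fin (k + 1), ∑ j : Fin (k + 1), c i * c j * (cj 1 i x * cj 1 j x) := by
    intro x
    rw [sq, Finset.sum_mul_sum]
    exact Finset.sum_congr rfl fun i _ => Finset.sum_congr rfl fun j _ => by ring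
  simp_rw [h1]
  rw [intervalIntegral.integral_finset_sum]
  · apply Finset.sum_congr rfl
    intro i _
    rw [intervalIntegral.integral_finset_sum]
    · simp_rw [intervalIntegral.integral_const_mul, integral_cj_mul one_pos]
      rw [Finset.sum_eq_single i]
      · rw [if_pos rfl]; ring
      · intro j _ hj
        rw [if_neg, mul_zero]
        intro h
        exact hj (Fin.ext h).symm
      · intro h; exact absurd (Finset.mem_univ i) h
    · intro j _
      apply Continuous.intervalIntegrable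
      exact continuous_const.mul ((continuous_cj 1 i).mul (continuous_cj 1 j))
  · intro i _
    apply Continuous.intervalIntegrable
    exact continuous_finset_sum _ fun j _ =>
      continuous_const.mul ((continuous_cj 1 i).mul (continuous_cj 1 j))

lemma sum_sq_integral' (k : ℕ) (c : Fin (k + 1) → ℝ) :
    ∫ x in (0 : ℝ)..1, (∑ j, c j * (-(j * Real.pi) * sj 1 j x)) ^ 2 ≤
      (k : ℝ) ^ 2 * Real.pi ^ 2 * ∑ j : Fin (k + 1), c j ^ 2 * nrm 1 j := by
  have h1 : ∀ x, (∑ j, c j * (-(j * Real.pi) * sj 1 j x)) ^ 2 =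
      ∑ i : Fin (k + 1), ∑ j : Fin (k + 1),
        c i * c j * (i * Real.pi) * (j * Real.pi) * (sj 1 i x * sj 1 j x) := by
    intro x
    rw [sq, Finset.sum_mul_sum]
    exact Finset.sum_congr rfl fun i _ => Finset.sum_congr rfl fun j _ => by ring
  simp_rw [h1]
  rw [intervalIntegral.integral_finset_sum]
  · rw [Finset.mul_sum]
    apply Finset.sum_le_sum
    intro i _
    rw [intervalIntegral.integral_finset_sum]
    · simp_rw [intervalIntegral.integral_const_mul, integral_sj_mul one_pos]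
      rw [Finset.sum_eq_single i]
      · by_cases hi : (i : ℕ) = 0
        · rw [if_neg (by tauto), mul_zero]
          have := nrm_pos one_pos (i : ℕ)
          positivity
        · rw [if_pos ⟨rfl, hi⟩]
          have h2 : nrm 1 i = 1 / 2 := by unfold nrm; rw [if_neg hi]
          rw [h2]
          have h3 : ((i : ℕ) : ℝ) ≤ k := by
            have : (i : ℕ) ≤ k := Nat.lt_succ_iff.mp i.2
            exact_mod_cast this
          have h4 : ((i : ℕ) : ℝ) ^ 2 ≤ (k : ℝ) ^ 2 := pow_le_pow_left₀ (Nat.cast_nonneg _) h3 2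
          have h5 : 0 ≤ c i ^ 2 * Real.pi ^ 2 * (1 / 2) := by positivity
          nlinarith
      · intro j _ hj
        rw [if_neg, mul_zero]
        rintro ⟨h, _⟩
        exact hj (Fin.ext h).symm
      · intro h; exact absurd (Finset.mem_univ i) h
    · intro j _
      apply Continuous.intervalIntegrable
      exact continuous_const.mul ((continuous_sj 1 i).mul (continuous_sj 1 j))
  · intro i _
    apply Continuous.intervalIntegrable
    exact continuous_finset_sum _ fun j _ =>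
      continuous_const.mul ((continuous_sj 1 i).mul (continuous_sj 1 j))

lemma adm_cos {w : ℝ → ℝ} (hw : Continuous w) (hpos : ∀ x, 0 < w x) (m M : ℝ) (hm : 0 < m)
    (hwm : ∀ x ∈ Icc (0 : ℝ) 1, m ≤ w x) (hwM : ∀ x ∈ Icc (0 : ℝ) 1, w x ≤ M) (k : ℕ) :
    Admissible (Reg w) k ((M / m) * ((k : ℝ) ^ 2 * Real.pi ^ 2)) := by
  have hM : 0 < M := lt_of_lt_of_le (hpos 0) (hwM 0 ⟨le_rfl, zero_le_one⟩)
  set N : (Fin (k + 1) → ℝ) → ℝ := fun c => ∑ j : Fin (k + 1), c j ^ 2 * nrm 1 j with hN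
  have hN0 : ∀ c, 0 ≤ N c := fun c =>
    Finset.sum_nonneg fun j _ => mul_nonneg (sq_nonneg _) (nrm_pos one_pos _).le
  have hc1 : ∀ c : Fin (k + 1) → ℝ, Continuous fun x => ∑ j, c j * cj 1 j x := fun c =>
    continuous_finset_sum _ fun j _ => continuous_const.mul (continuous_cj 1 j)
  have hc2 : ∀ c : Fin (k + 1) → ℝ, Continuous fun x => ∑ j, c j * (-(j * Real.pi) * sj 1 j x) :=
    fun c => continuous_finset_sum _ fun j _ =>
      continuous_const.mul (continuous_const.mul (continuous_sj 1 j))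
  have hlow : ∀ c, 2 * m * N c ≤ ∫ z in Reg w, test k c z ^ 2 := by
    intro c
    rw [region_integral hw hpos (G := fun z => test k c z ^ 2) ((contDiff_test k c).continuous.pow 2)]
    have h1 : ∀ x, ∫ s in (-1 : ℝ)..1, test k c (x, s * w x) ^ 2 =
        2 * (∑ j, c j * cj 1 j x) ^ 2 := by
      intro x
      simp only [test_apply]
      rw [intervalIntegral.integral_const, smul_eq_mul]; norm_num
    simp_rw [h1]
    have h2 : 2 * m * N c = ∫ x in (0 : ℝ)..1, (2 * (∑ j, c j * cj 1 j x) ^ 2) * m := by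
      simp only [hN]
      rw [← sum_sq_integral, ← intervalIntegral.integral_const_mul]
      apply intervalIntegral.integral_congr
      intro x _
      simp only
      ring
    rw [h2]
    apply intervalIntegral.integral_mono_on zero_le_one
    · apply Continuous.intervalIntegrable
      exact (continuous_const.mul ((hc1 c).pow 2)).mul continuous_const
    · apply Continuous.intervalIntegrable
      exact (continuous_const.mul ((hc1 c).pow 2)).mul hw
    · intro x hx
      exact mul_le_mul_of_nonneg_left (hwm x hx) (by positivity)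
  have hup : ∀ c, ∫ z in Reg w, grad2 (test k c) z ≤
      2 * M * ((k : ℝ) ^ 2 * Real.pi ^ 2 * N c) := by
    intro c
    rw [region_integral hw hpos (continuous_grad2 (contDiff_test k c))]
    have h1 : ∀ x, ∫ s in (-1 : ℝ)..1, grad2 (test k c) (x, s * w x) =
        2 * (∑ j, c j * (-(j * Real.pi) * sj 1 j x)) ^ 2 := by
      intro x
      simp only [fderiv_test]
      rw [intervalIntegral.integral_const, smul_eq_mul]; norm_num
    simp_rw [h1]
    have h2 : ∫ x in (0 : ℝ)..1, (2 * (∑ j, c j * (-(j * Real.pi) * sj 1 j x)) ^ 2) * w x ≤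
        ∫ x in (0 : ℝ)..1, (2 * M) * (∑ j, c j * (-(j * Real.pi) * sj 1 j x)) ^ 2 := by
      apply intervalIntegral.integral_mono_on zero_le_one
      · apply Continuous.intervalIntegrable
        exact (continuous_const.mul ((hc2 c).pow 2)).mul hw
      · apply Continuous.intervalIntegrable
        exact continuous_const.mul ((hc2 c).pow 2)
      · intro x hx
        have h3 := hwM x hx
        have h4 : 0 ≤ (∑ j, c j * (-(j * Real.pi) * sj 1 j x)) ^ 2 := sq_nonneg _
        nlinarith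
    refine le_trans h2 ?_
    rw [intervalIntegral.integral_const_mul]
    exact mul_le_mul_of_nonneg_left (sum_sq_integral' k c) (by positivity)
  have hinj : Function.Injective (test k) := by
    rw [injective_iff_map_eq_zero]
    intro c hc
    have h1 := hlow c
    rw [hc] at h1
    simp only [Pi.zero_apply, ne_eq, OfNat.ofNat_ne_zero, not_false_eq_true, zero_pow,
      integral_zero] at h1
    have h2 : N c = 0 := le_antisymm (by nlinarith) (hN0 c)
    simp only [hN] at h2
    rw [Finset.sum_eq_zero_iff_of_nonneg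
      (fun j _ => mul_nonneg (sq_nonneg _) (nrm_pos one_pos _).le)] at h2
    funext j
    have h3 := h2 j (Finset.mem_univ j)
    rcases mul_eq_zero.mp h3 with h4 | h4
    · simpa using h4
    · exact absurd h4 (nrm_pos one_pos _).ne'
  refine ⟨LinearMap.range (test k), ?_, ?_, ?_, ?_⟩
  · rw [LinearMap.finrank_range_of_inj hinj]
    simp
  · rintro _ ⟨c, rfl⟩
    exact contDiff_test k c
  · rintro _ ⟨c, rfl⟩ h
    have h1 := hlow c
    have h2 : ∫ z in Reg w, test k c z ^ 2 = 0 := by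
      rw [setIntegral_congr_fun (isOpen_Reg hw).measurableSet
        (g := fun _ => (0 : ℝ)) (fun z hz => by simp [h z hz])]
      simp
    rw [h2] at h1
    have h3 : N c = 0 := le_antisymm (by nlinarith) (hN0 c)
    simp only [hN] at h3
    rw [Finset.sum_eq_zero_iff_of_nonneg
      (fun j _ => mul_nonneg (sq_nonneg _) (nrm_pos one_pos _).le)] at h3
    have h4 : c = 0 := by
      funext j
      have h5 := h3 j (Finset.mem_univ j)
      rcases mul_eq_zero.mp h5 with h4 | h4
      · simpa using h4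
      · exact absurd h4 (nrm_pos one_pos _).ne'
    rw [h4, map_zero]
  · rintro _ ⟨c, rfl⟩
    refine le_trans (hup c) ?_
    have h1 := hlow c
    have h2 : 0 ≤ (M / m) * ((k : ℝ) ^ 2 * Real.pi ^ 2) := by positivity
    refine le_trans (le_of_eq ?_) (mul_le_mul_of_nonneg_left h1 h2)
    field_simp

/-- lower bound for the eigenvalues from a Poincaré inequality -/
lemma lower {Ω : Set (ℝ × ℝ)} (hΩ : IsOpen Ω)
    (hint : ∀ f : ℝ × ℝ → ℝ, Continuous f → IntegrableOn (fun z => f z ^ 2) Ω) (C : ℝ) (hC : 0 < C)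
    (ℓ : (ℝ × ℝ → ℝ) → ℝ) (hadd : ∀ f g : ℝ × ℝ → ℝ, Continuous f → Continuous g →
      ℓ (f + g) = ℓ f + ℓ g) (hsmul : ∀ (a : ℝ) (f : ℝ × ℝ → ℝ), Continuous f → ℓ (a • f) = a * ℓ f)
    (hP : ∀ f : ℝ × ℝ → ℝ, ContDiff ℝ 1 f → ℓ f = 0 →
      ∫ z in Ω, f z ^ 2 ≤ C * ∫ z in Ω, grad2 f z) (k : ℕ) (hk : 1 ≤ k) (r : ℝ)
    (hr : Admissible Ω k r) : 1 / C ≤ r := by
  obtain ⟨V, hdim, hC1, hinj, hray⟩ := hr
  let L : V →ₗ[ℝ] ℝ :=
    { toFun := fun f => ℓ f.1
      map_add' := fun f g => hadd _ _ (hC1 _ f.2).continuous (hC1 _ g.2).continuous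
      map_smul' := fun a f => hsmul a _ (hC1 _ f.2).continuous }
  have hfd : FiniteDimensional ℝ V := FiniteDimensional.of_finrank_pos (by omega)
  have hker : LinearMap.ker L ≠ ⊥ := by
    apply LinearMap.ker_ne_bot_of_finrank_lt
    rw [hdim, Module.finrank_self]; omega
  obtain ⟨f, hf, hf0⟩ := (Submodule.ne_bot_iff _).mp hker
  have hfC := hC1 _ f.2
  have h1 := hP f.1 hfC hf
  have h2 := hray f.1 f.2
  have hpos : 0 < ∫ z in Ω, f.1 z ^ 2 := by
    apply integral_sq_pos hΩ hfC.continuous (hint _ hfC.continuous)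
    intro h
    exact hf0 (Subtype.ext (hinj _ f.2 h))
  rw [div_le_iff₀ hC]
  by_contra hcon
  have hcon' := not_le.mp hcon
  have h3 : C * ∫ z in Ω, grad2 f.1 z ≤ C * (r * ∫ z in Ω, f.1 z ^ 2) :=
    mul_le_mul_of_nonneg_left h2 hC.le
  nlinarith

/-- the clamped profile -/
noncomputable def wc (lam ε x : ℝ) : ℝ := ε * Real.exp (-lam * max x 0)

lemma exp_lip {a b : ℝ} (ha : 0 ≤ a) (hab : a ≤ b) :
    |Real.exp (-a) - Real.exp (-b)| ≤ b - a := by
  have h1 : Real.exp (-b) ≤ Real.exp (-a) := Real.exp_le_exp.mpr (by linarith)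
  rw [abs_of_nonneg (by linarith)]
  have h2 : Real.exp (-b) = Real.exp (-a) * Real.exp (-(b - a)) := by
    rw [← Real.exp_add]; congr 1; ring
  have h3 := Real.add_one_le_exp (-(b - a))
  have h4 : Real.exp (-a) ≤ 1 := Real.exp_le_one_iff.mpr (by linarith)
  have h5 : 0 < Real.exp (-a) := Real.exp_pos _
  rw [h2]
  nlinarith

lemma wc_lip {lam ε : ℝ} (hlam : 0 < lam) (hε : 0 < ε) (h : lam * ε ≤ 1 / 2) (x y : ℝ) :
    |wc lam ε x - wc lam ε y| ≤ (1 / 2) * |x - y| := by
  have key : ∀ x y : ℝ, x ≤ y → |wc lam ε x - wc lam ε y| ≤ (1 / 2) * |x - y| := by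
    intro x y hxy
    unfold wc
    rw [← mul_sub, abs_mul, abs_of_pos hε]
    have h0 : max x 0 ≤ max y 0 := max_le_max_right _ hxy
    have h1 := exp_lip (a := lam * max x 0) (b := lam * max y 0) (by positivity)
      (mul_le_mul_of_nonneg_left h0 hlam.le)
    rw [← neg_mul, ← neg_mul] at h1
    have h2 : max y 0 - max x 0 ≤ y - x := by
      rcases le_total x 0 with hx | hx <;> rcases le_total y 0 with hy | hy
      · rw [max_eq_right hx, max_eq_right hy]; linarith
      · rw [max_eq_right hx, max_eq_left hy]; linarith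
      · rw [max_eq_left hx, max_eq_right hy]; linarith
      · rw [max_eq_left hx, max_eq_left hy]
    rw [abs_sub_comm x y, abs_of_nonneg (by linarith : 0 ≤ y - x)]
    calc ε * |Real.exp (-lam * max x 0) - Real.exp (-lam * max y 0)| ≤
        ε * (lam * max y 0 - lam * max x 0) := mul_le_mul_of_nonneg_left h1 hε.le
      _ = (lam * ε) * (max y 0 - max x 0) := by ring
      _ ≤ (1 / 2) * (y - x) := mul_le_mul h h2 (by linarith) (by norm_num)
  rcases le_total x y with hxy | hxy
  · exact key x y hxy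
  · rw [abs_sub_comm, abs_sub_comm x y]
    exact key y x hxy

lemma reg_wc (lam ε : ℝ) : Reg (wc lam ε) = Reg (w lam ε) := by
  ext z
  unfold Reg wc w
  simp only [mem_setOf_eq]
  constructor
  · rintro ⟨h0, h1, h2⟩
    rw [max_eq_left h0.le] at h2
    exact ⟨h0, h1, h2⟩
  · rintro ⟨h0, h1, h2⟩
    rw [max_eq_left h0.le]
    exact ⟨h0, h1, h2⟩

/-- **Negative answer.** In the plane, for every `k ≥ 1` and `δ > 0` there are bounded Lipschitz
domains `Ω₁ ⊆ Ω₂` with `Ω₁` convex and `μ_k(Ω₁) / μ_k(Ω₂) < δ`. -/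
theorem result (k : ℕ) (hk : 1 ≤ k) (δ : ℝ) (hδ : 0 < δ) :
    ∃ Ω₁ Ω₂ : Set (ℝ × ℝ), IsLipschitzDomain Ω₁ ∧ IsLipschitzDomain Ω₂ ∧ Ω₁ ⊆ Ω₂ ∧
      Convex ℝ Ω₁ ∧ (∃ r, Admissible Ω₁ k r) ∧ (∃ r, Admissible Ω₂ k r) ∧ 0 < mu Ω₂ k ∧
        mu Ω₁ k / mu Ω₂ k < δ := by
  obtain ⟨n, hn⟩ := exists_nat_gt (9 * ((k : ℝ) ^ 2 * Real.pi ^ 2) / δ)
  set lam : ℝ := n + 1 with hlam
  have hlam1 : 1 ≤ lam := by rw [hlam]; have : (0 : ℝ) ≤ n := Nat.cast_nonneg n; linarith
  have hlam0 : 0 < lam := by linarith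
  set ε : ℝ := 1 / (2 * lam) with hε
  have hεpos : 0 < ε := by positivity
  have hle : lam * ε ≤ 1 / 2 := by rw [hε]; apply le_of_eq; field_simp
  set b : ℝ := ε * Real.exp (-lam) with hb
  have hbpos : 0 < b := by positivity
  have hwpos : ∀ x, 0 < w lam ε x := fun x => by unfold w; positivity
  have hwc : Continuous (w lam ε) := w_cont lam ε
  have hw1 : ∀ x ∈ Icc (0 : ℝ) 1, b ≤ w lam ε x := by
    intro x hx
    rw [hb]; unfold w
    apply mul_le_mul_of_nonneg_left _ hεpos.le
    apply Real.exp_le_exp.mpr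
    nlinarith [hx.2]
  have hw2 : ∀ x ∈ Icc (0 : ℝ) 1, w lam ε x ≤ ε := by
    intro x hx
    unfold w
    have : Real.exp (-lam * x) ≤ 1 := Real.exp_le_one_iff.mpr (by nlinarith [hx.1])
    nlinarith
  have hadm1 : Admissible (Reg fun _ => b) k ((k : ℝ) ^ 2 * Real.pi ^ 2) := by
    have := adm_cos (w := fun _ => b) continuous_const (fun _ => hbpos) b b hbpos
      (fun _ _ => le_rfl) (fun _ _ => le_rfl) k
    rwa [div_self hbpos.ne', one_mul] at this
  have hadm2 : Admissible (Reg (w lam ε)) k ((ε / b) * ((k : ℝ) ^ 2 * Real.pi ^ 2)) :=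
    adm_cos hwc hwpos b ε hbpos hw1 hw2 k
  have hlow2 : ∀ r, Admissible (Reg (w lam ε)) k r → lam ^ 2 / 9 ≤ r := by
    intro r hr
    have h1 := lower (isOpen_Reg hwc) (fun f hf => integrableOn_Reg hwc (hf.pow 2))
      (9 / lam ^ 2) (by positivity) (fun f => ∫ s in (-1 : ℝ)..1, f (0, s * ε))
      (fun f g hf hg => by
        rw [← intervalIntegral.integral_add]
        · rfl
        · exact (hf.comp (by fun_prop : Continuous fun s : ℝ => ((0, s * ε) : ℝ × ℝ))).intervalIntegrable _ _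
        · exact (hg.comp (by fun_prop : Continuous fun s : ℝ => ((0, s * ε) : ℝ × ℝ))).intervalIntegrable _ _)
      (fun a f _ => by
        rw [← intervalIntegral.integral_const_mul]
        rfl)
      (fun f hf h0 => by
        have h2 := horn_ineq f hf lam ε hlam0 hεpos (by linarith) h0
        rw [region_integral hwc hwpos (G := fun z => f z ^ 2) (hf.continuous.pow 2),
          region_integral hwc hwpos (continuous_grad2 hf)]
        refine le_trans h2 ?_
        have h3 : 0 ≤ ∫ x in (0 : ℝ)..1,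
            (∫ s in (-1 : ℝ)..1, grad2 f (x, s * w lam ε x)) * w lam ε x := by
          apply intervalIntegral.integral_nonneg zero_le_one
          intro x _
          apply mul_nonneg _ (hwpos x).le
          exact intervalIntegral.integral_nonneg (by norm_num) fun s _ => grad2_nonneg _ _
        apply mul_le_mul_of_nonneg_right _ h3
        rw [hε]
        have : 8 / lam ^ 2 + 2 * (1 / (2 * lam)) ^ 2 = (17 / 2) / lam ^ 2 := by
          field_simp; ring
        rw [this]
        apply div_le_div_of_nonneg_right (by norm_num) (by positivity)) k hk r hr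
    rwa [one_div_div] at h1
  have hmu1 : mu (Reg fun _ => b) k ≤ (k : ℝ) ^ 2 * Real.pi ^ 2 := by
    refine csInf_le (s := {r | Admissible (Reg fun _ => b) k r}) ⟨0, ?_⟩ hadm1
    rintro r ⟨V, hdim, hC1, hinj, hray⟩
    have hfd : FiniteDimensional ℝ V := FiniteDimensional.of_finrank_pos (by omega)
    have hnt : Nontrivial V := Module.nontrivial_of_finrank_pos (R := ℝ) (by omega)
    obtain ⟨f, hf0⟩ := exists_ne (0 : V)
    have hfC := hC1 _ f.2
    have hpos : 0 < ∫ z in (Reg fun _ => b), f.1 z ^ 2 := by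
      apply integral_sq_pos (isOpen_Reg continuous_const) hfC.continuous
        (integrableOn_Reg continuous_const (hfC.continuous.pow 2))
      intro h
      exact hf0 (Subtype.ext (hinj _ f.2 h))
    have h1 := hray f.1 f.2
    have h2 : 0 ≤ ∫ z in (Reg fun _ => b), grad2 f.1 z :=
      integral_nonneg fun z => grad2_nonneg _ _
    by_contra hr
    nlinarith [not_le.mp hr]
  have hmu2 : lam ^ 2 / 9 ≤ mu (Reg (w lam ε)) k :=
    le_csInf ⟨_, hadm2⟩ hlow2
  have hmu2pos : 0 < mu (Reg (w lam ε)) k := lt_of_lt_of_le (by positivity) hmu2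
  refine ⟨Reg fun _ => b, Reg (w lam ε), ?_, ?_, ?_, ?_, ⟨_, hadm1⟩, ⟨_, hadm2⟩, hmu2pos, ?_⟩
  · exact reg_lipschitz (fun x y => by simp) (fun _ => hbpos)
  · rw [← reg_wc]
    exact reg_lipschitz (wc_lip hlam0 hεpos hle) (fun x => by unfold wc; positivity)
  · rintro z ⟨h0, h1, h2⟩
    exact ⟨h0, h1, lt_of_lt_of_le h2 (hw1 z.1 ⟨h0.le, h1.le⟩)⟩
  · have : (Reg fun _ => b) = Ioo (0 : ℝ) 1 ×ˢ Ioo (-b) b := by
      ext z
      unfold Reg
      simp only [mem_setOf_eq, mem_prod, mem_Ioo, abs_lt]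
      tauto
    rw [this]
    exact (convex_Ioo _ _).prod (convex_Ioo _ _)
  · rw [div_lt_iff₀ hmu2pos]
    have h1 : 9 * ((k : ℝ) ^ 2 * Real.pi ^ 2) < δ * lam ^ 2 := by
      rw [div_lt_iff₀ hδ] at hn
      have h2 : (n : ℝ) ≤ lam ^ 2 := by
        have h3 : (0 : ℝ) ≤ n := Nat.cast_nonneg n
        rw [hlam]; nlinarith
      nlinarith
    have h2 : δ * (lam ^ 2 / 9) ≤ δ * mu (Reg (w lam ε)) k := mul_le_mul_of_nonneg_left hmu2 hδ.le
    linarith

end Pool.Agent.Results.MP_770ffc_an.RatioTendsToZero
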